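import Pool.Agent.H633.BA.Main

set_option autoImplicit false

/-!
MP_ddd032_lc, Q1 and Q2: for every cardinal `κ < ℵ_ω`, and for every `κ` of uncountable
cofinality such that `cof([μ]^ω) < non(M)` for all `μ < κ`, the weak and the full Baumgartner
axiom are equivalent, on the Cantor space and on the Baire space.
-/

namespace Pool.Agent.Results.MP_ddd032_lc.BelowAlephOmega

open Cardinal Pool.Agent.R592.Ba Pool.Agent.H633.BA

/-- `BA⁻_κ ↔ BA_κ` on `2^ω` and on `ω^ω`, for all `κ < ℵ_ω` and for all `κ` of uncountable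
cofinality with `cof([μ]^ω) < non(M)` for all `μ < κ`. -/
theorem result (κ : Cardinal.{0})
    (hκ : κ < ℵ_ Ordinal.omega0 ∨
      (ℵ₀ < κ.ord.cof ∧ ∀ μ : Cardinal.{0}, μ < κ → cofc μ.out < nonM)) :
    (BAm κ (ℕ → Bool) ↔ BA κ (ℕ → Bool)) ∧ (BAm κ (ℕ → ℕ) ↔ BA κ (ℕ → ℕ)) :=
  equiv hκ

end Pool.Agent.Results.MP_ddd032_lc.BelowAlephOmega
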